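import Pool.Agent.Work.MP_84a460_co.Represent
import Pool.Agent.Work.MP_84a460_co.Structure

open Pool.Agent.Work.MP_84a460_co

/-- For a finite graph `H`, the class of `H`-free interval graphs has bounded clique-width if and
only if `H` is an induced subgraph of some `graphA t` or of some `graphB t`, and also if and only if
`H` is a split graph and a unit interval graph without independent set of size four and without
induced subgraph isomorphic to `graphQ`. -/
theorem Pool.Agent.Results.MP_84a460_co.Classification.result {W : Type} [Finite W]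
    (H : SimpleGraph W) :
    (BoundedOnHFreeInterval H ↔ ∃ t, Nonempty (H ↪g graphA t) ∨ Nonempty (H ↪g graphB t)) ∧
    (BoundedOnHFreeInterval H ↔
      IsSplitGraph H ∧ IsUnitIntervalGraph H ∧ IndepLEThree H ∧ IsEmpty (graphQ ↪g H)) := by
  have h1 : BoundedOnHFreeInterval H →
      IsSplitGraph H ∧ IsUnitIntervalGraph H ∧ IndepLEThree H ∧ IsEmpty (graphQ ↪g H) :=
    fun h => ⟨split_of_bounded h, unit_of_bounded h, indep_of_bounded h, noQ_of_bounded h⟩
  have h2 : (IsSplitGraph H ∧ IsUnitIntervalGraph H ∧ IndepLEThree H ∧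
      IsEmpty (graphQ ↪g H)) → ∃ t, Nonempty (H ↪g graphA t) ∨ Nonempty (H ↪g graphB t) :=
    fun h => emb_of_conditions h.1 h.2.1 h.2.2.1 h.2.2.2
  exact ⟨⟨fun h => h2 (h1 h), bounded_of_emb⟩, ⟨h1, fun h => bounded_of_emb (h2 h)⟩⟩
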